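import Pool.Agent.W475.BG.Stm

set_option autoImplicit false

namespace Pool.Agent.W304.BG

open Complex MeasureTheory Filter Topology
open Pool.Agent.W475.BG
open scoped ComplexConjugate

theorem norm_Gamma_le {s : ℂ} (hs : 0 < s.re) : ‖Complex.Gamma s‖ ≤ Real.Gamma s.re := by
  rw [Complex.Gamma_eq_integral hs, Real.Gamma_eq_integral hs]
  unfold Complex.GammaIntegral
  refine (norm_integral_le_integral_norm _).trans (le_of_eq ?_)
  refine setIntegral_congr_fun measurableSet_Ioi fun x hx => ?_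
  have hx0 : (0:ℝ) < x := hx
  rw [norm_mul, Complex.norm_real, Real.norm_eq_abs, abs_of_pos (Real.exp_pos _),
    Complex.norm_cpow_eq_rpow_re_of_pos hx0]
  simp

/-- crude upper Stirling bound -/
theorem Gamma_le_two {y : ℝ} (hy : 2 ≤ y) : Real.Gamma y ≤ Real.exp (y * Real.log y) := by
  have hc : y ≤ ((⌈y⌉₊ : ℕ) : ℝ) := Nat.le_ceil y
  have h1 : Real.Gamma y ≤ Real.Gamma ((⌈y⌉₊ : ℕ) : ℝ) :=
    Real.Gamma_strictMonoOn_Ici.monotoneOn hy (hy.trans hc) hc
  obtain ⟨m, hm⟩ : ∃ m, ⌈y⌉₊ = m + 1 := by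
    refine ⟨⌈y⌉₊ - 1, ?_⟩
    have : 0 < ⌈y⌉₊ := Nat.ceil_pos.2 (by linarith)
    omega
  rw [hm] at h1
  have h2 : Real.Gamma ((m + 1 : ℕ) : ℝ) = (m.factorial : ℝ) := by
    push_cast
    exact Real.Gamma_nat_eq_factorial m
  rw [h2] at h1
  have hmy : (m : ℝ) ≤ y := by
    have := Nat.ceil_lt_add_one (show 0 ≤ y by linarith)
    rw [hm] at this
    push_cast at this
    linarith
  have h3 : (m.factorial : ℝ) ≤ (m : ℝ) ^ m := by exact_mod_cast Nat.factorial_le_pow m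
  have h4 : (m : ℝ) ^ m ≤ y ^ m := by gcongr
  have h5 : y ^ m ≤ Real.exp (y * Real.log y) := by
    rw [← Real.rpow_natCast, mul_comm, ← Real.rpow_def_of_pos (by linarith)]
    exact Real.rpow_le_rpow_of_exponent_le (by linarith) hmy
  linarith

theorem Gamma_le_quarter {y : ℝ} (hy : 1 / 4 ≤ y) :
    Real.Gamma y ≤ 4 * Real.exp ((y + 2) * Real.log (y + 2)) := by
  have h1 : Real.Gamma (y + 1 + 1) = (y + 1) * (y * Real.Gamma y) := by
    rw [Real.Gamma_add_one (by linarith), Real.Gamma_add_one (by linarith)]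
  have h2 := Gamma_le_two (y := y + 2) (by linarith)
  have h3 : y + 1 + 1 = y + 2 := by ring
  rw [h3] at h1
  have hG : 0 < Real.Gamma y := Real.Gamma_pos_of_pos (by linarith)
  have h4 : (1 / 4 : ℝ) * Real.Gamma y ≤ (y + 1) * (y * Real.Gamma y) := by
    have : (1 / 4 : ℝ) ≤ (y + 1) * y := by nlinarith
    calc (1 / 4 : ℝ) * Real.Gamma y ≤ ((y + 1) * y) * Real.Gamma y := by gcongr
      _ = (y + 1) * (y * Real.Gamma y) := by ring
  linarith

theorem one_factor (m : ℝ) (hm : 0 ≤ m) : ∃ C : ℝ, 0 ≤ C ∧ ∀ z : ℂ, 0 ≤ z.re →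
    ‖Gammaℝ (1 / 2 + z + m)‖ ≤ Real.exp (z.re / 2 * Real.log (2 + z.re) + C * (1 + z.re)) := by
  set c : ℝ := 9 / 4 + m / 2 with hc
  have hc0 : 0 ≤ c := by positivity
  have hlc : 0 ≤ Real.log (1 + c) := Real.log_nonneg (by linarith)
  have hl4 : 0 ≤ Real.log 4 := Real.log_nonneg (by norm_num)
  refine ⟨c + (1 + c) * Real.log (1 + c) + Real.log 4, by positivity, fun z hz => ?_⟩
  set x := z.re with hx
  have hre : ((1 / 2 + z + m : ℂ) / 2).re = (1 / 2 + x + m) / 2 := by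
    have : ((1 / 2 + z + m : ℂ) / 2) = (((1 / 2 : ℝ) : ℂ) + z + m) * (((1 / 2 : ℝ)) : ℂ) := by
      push_cast; ring
    rw [this, Complex.re_mul_ofReal]
    simp [hx]
    ring
  have hre2 : (-(1 / 2 + z + m : ℂ) / 2).re = -((1 / 2 + x + m) / 2) := by
    rw [neg_div, Complex.neg_re, hre]
  set y := (1 / 2 + x + m) / 2 with hy
  have hy4 : 1 / 4 ≤ y := by rw [hy]; linarith
  have h1 : ‖Gammaℝ (1 / 2 + z + m)‖ ≤ Real.Gamma y := by
    rw [Gammaℝ_def, norm_mul]
    have hpi : ‖(Real.pi : ℂ) ^ (-(1 / 2 + z + m : ℂ) / 2)‖ ≤ 1 := by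
      rw [Complex.norm_cpow_eq_rpow_re_of_pos Real.pi_pos, hre2]
      apply Real.rpow_le_one_of_one_le_of_nonpos
      · linarith [Real.pi_gt_three]
      · linarith
    have hG : ‖Complex.Gamma ((1 / 2 + z + m : ℂ) / 2)‖ ≤ Real.Gamma y := by
      have := norm_Gamma_le (s := (1 / 2 + z + m : ℂ) / 2) (by rw [hre]; linarith)
      rwa [hre] at this
    calc _ ≤ 1 * Real.Gamma y := by gcongr
      _ = Real.Gamma y := one_mul _
  have h2 := Gamma_le_quarter hy4
  have hyc : y + 2 = x / 2 + c := by rw [hy, hc]; ring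
  have h3 : Real.log (y + 2) ≤ Real.log (2 + x) + Real.log (1 + c) := by
    rw [← Real.log_mul (by linarith) (by linarith)]
    apply Real.log_le_log (by linarith)
    rw [hyc]
    nlinarith
  have hlx : Real.log (2 + x) ≤ 1 + x := by
    have := Real.log_le_sub_one_of_pos (show 0 < 2 + x by linarith)
    linarith
  have h4 : (y + 2) * Real.log (y + 2) ≤
      x / 2 * Real.log (2 + x) + (c + (1 + c) * Real.log (1 + c)) * (1 + x) := by
    calc (y + 2) * Real.log (y + 2) ≤ (y + 2) * (Real.log (2 + x) + Real.log (1 + c)) := by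
          gcongr
      _ = x / 2 * Real.log (2 + x) + c * Real.log (2 + x) + (x / 2 + c) * Real.log (1 + c) := by
          rw [hyc]; ring
      _ ≤ x / 2 * Real.log (2 + x) + c * (1 + x) + ((1 + c) * (1 + x)) * Real.log (1 + c) := by
          have : x / 2 + c ≤ (1 + c) * (1 + x) := by nlinarith
          gcongr
      _ = _ := by ring
  have h5 : (4 : ℝ) ≤ Real.exp (Real.log 4 * (1 + x)) := by
    calc (4 : ℝ) = Real.exp (Real.log 4 * 1) := by rw [mul_one, Real.exp_log (by norm_num)]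
      _ ≤ Real.exp (Real.log 4 * (1 + x)) := by gcongr; linarith
  calc ‖Gammaℝ (1 / 2 + z + m)‖ ≤ 4 * Real.exp ((y + 2) * Real.log (y + 2)) := h1.trans h2
    _ ≤ Real.exp (Real.log 4 * (1 + x)) *
        Real.exp (x / 2 * Real.log (2 + x) + (c + (1 + c) * Real.log (1 + c)) * (1 + x)) := by
        gcongr
    _ = _ := by
        rw [← Real.exp_add]
        congr 1
        ring

theorem HH_le (D : Dat) (hD : Ok D) : ∃ C : ℝ, 0 ≤ C ∧ ∀ z : ℂ, 0 ≤ z.re →
    ‖HH D z‖ ≤ Real.exp ((D.d : ℝ) * z.re / 2 * Real.log (2 + z.re) + C * (1 + z.re)) := by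
  choose C hC0 hC using fun j => one_factor (D.mu j) (hD.hmu j)
  refine ⟨|Real.log D.Q| + ∑ j, C j, add_nonneg (abs_nonneg _) (Finset.sum_nonneg fun j _ => hC0 j),
    fun z hz => ?_⟩
  unfold HH
  rw [norm_mul, norm_prod]
  have h1 : ‖(D.Q : ℂ) ^ (1 / 2 + z)‖ ≤ Real.exp (|Real.log D.Q| * (1 + z.re)) := by
    rw [Complex.norm_cpow_eq_rpow_re_of_pos hD.hQ, Real.rpow_def_of_pos hD.hQ]
    apply Real.exp_le_exp.2
    have : (1 / 2 + z).re = 1 / 2 + z.re := by simp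
    rw [this]
    calc Real.log D.Q * (1 / 2 + z.re) ≤ |Real.log D.Q| * (1 / 2 + z.re) := by
          gcongr; exact le_abs_self _
      _ ≤ |Real.log D.Q| * (1 + z.re) := by gcongr; norm_num
  have h2 : ∏ j, ‖Gammaℝ (1 / 2 + z + D.mu j)‖ ≤
      Real.exp (∑ j : Fin D.d, (z.re / 2 * Real.log (2 + z.re) + C j * (1 + z.re))) := by
    rw [Real.exp_sum]
    exact Finset.prod_le_prod (fun j _ => norm_nonneg _) (fun j _ => hC j z hz)
  calc _ ≤ Real.exp (|Real.log D.Q| * (1 + z.re)) *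
      Real.exp (∑ j : Fin D.d, (z.re / 2 * Real.log (2 + z.re) + C j * (1 + z.re))) := by
        gcongr
    _ = _ := by
        have hsum : ∑ j : Fin D.d, (z.re / 2 * Real.log (2 + z.re) + C j * (1 + z.re)) =
            (D.d : ℝ) * (z.re / 2 * Real.log (2 + z.re)) + (∑ j, C j) * (1 + z.re) := by
          rw [Finset.sum_add_distrib, Finset.sum_const, Finset.card_univ,
            Fintype.card_fin, nsmul_eq_mul, Finset.sum_mul]
        rw [← Real.exp_add, hsum]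
        congr 1
        ring

theorem GG_le (D : Dat) (C : ℝ) (hC : ∀ z : ℂ, 0 ≤ z.re →
    ‖HH D z‖ ≤ Real.exp ((D.d : ℝ) * z.re / 2 * Real.log (2 + z.re) + C * (1 + z.re)))
    (κ : ℝ) (z : ℂ) (hz : 0 ≤ z.re) :
    ‖GG D κ z‖ ≤ Real.exp ((D.d : ℝ) * z.re / 2 * Real.log (2 + z.re) + C * (1 + z.re)) := by
  set M := Real.exp ((D.d : ℝ) * z.re / 2 * Real.log (2 + z.re) + C * (1 + z.re)) with hM
  unfold GG
  rw [norm_mul]
  have hint : Integrable (fun v : ℝ => Real.exp (-v ^ 2) * M) := by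
    have := (integrable_exp_neg_mul_sq (b := 1) one_pos).mul_const M
    simpa using this
  have h1 : ‖∫ v : ℝ, ((Real.exp (-v ^ 2) : ℝ) : ℂ) * HH D (z + I * ((2 * Real.sqrt κ * v : ℝ) : ℂ))‖
      ≤ ∫ v : ℝ, Real.exp (-v ^ 2) * M := by
    refine norm_integral_le_of_norm_le hint (Eventually.of_forall fun v => ?_)
    rw [norm_mul, Complex.norm_real, Real.norm_eq_abs, abs_of_pos (Real.exp_pos _)]
    have hre : (z + I * ((2 * Real.sqrt κ * v : ℝ) : ℂ)).re = z.re := by simp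
    have h2 := hC (z + I * ((2 * Real.sqrt κ * v : ℝ) : ℂ)) (by rw [hre]; exact hz)
    rw [hre] at h2
    gcongr
  have h3 : ∫ v : ℝ, Real.exp (-v ^ 2) * M = Real.sqrt Real.pi * M := by
    rw [integral_mul_const]
    have := integral_gaussian 1
    simp only [neg_mul, one_mul, div_one] at this
    rw [this]
  rw [h3] at h1
  have hpi : 0 < Real.sqrt Real.pi := Real.sqrt_pos.2 Real.pi_pos
  have h4 : ‖((1 / Real.sqrt Real.pi : ℝ) : ℂ)‖ = 1 / Real.sqrt Real.pi := by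
    rw [Complex.norm_real, Real.norm_eq_abs, abs_of_pos (by positivity)]
  rw [h4]
  calc 1 / Real.sqrt Real.pi * _ ≤ 1 / Real.sqrt Real.pi * (Real.sqrt Real.pi * M) := by gcongr
    _ = M := by field_simp

theorem numeric (d κ A C1 : ℝ) (hd : 1 ≤ d) (hκ : 0 < κ) (hA : 0 ≤ A) (hC1 : 0 ≤ C1) :
    ∃ C2 : ℝ, 0 ≤ C2 ∧ ∀ x L : ℝ, 0 ≤ x → 0 ≤ L →
    A * L - κ * L ^ 2 + (d * (x + 2 * κ * L) / 2 * Real.log (2 + (x + 2 * κ * L)) +
      C1 * (1 + (x + 2 * κ * L))) ≤ d * x / 2 * Real.log (2 + x) + C2 * (1 + x) - 2 * L := by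
  set ε : ℝ := 1 / (4 * d * κ) with hε
  have hε0 : 0 < ε := by positivity
  set B : ℝ := A + d * κ + 1 / 4 + d * κ * |Real.log (1 / ε)| + 2 * C1 * κ + 2 with hB
  have hB0 : 0 ≤ B := by positivity
  refine ⟨8 * κ * d ^ 2 + C1 + B ^ 2 / (2 * κ), by positivity, fun x L hx hL => ?_⟩
  set l := Real.log (2 + x) with hl
  have hl0 : 0 ≤ l := Real.log_nonneg (by linarith)
  -- l^2 ≤ 8 (1 + x)
  have hl2 : l ^ 2 ≤ 8 * (1 + x) := by
    have h1 : l ≤ 2 * Real.sqrt (2 + x) := by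
      have h2 : Real.log (Real.sqrt (2 + x)) = l / 2 := by
        rw [Real.log_sqrt (by linarith)]
      have h3 := Real.log_le_sub_one_of_pos (show 0 < Real.sqrt (2 + x) from
        Real.sqrt_pos.2 (by linarith))
      rw [h2] at h3
      linarith
    have h4 : l ^ 2 ≤ (2 * Real.sqrt (2 + x)) ^ 2 := by gcongr
    rw [mul_pow, Real.sq_sqrt (by linarith)] at h4
    linarith
  -- first bound for the logarithm
  have hlog1 : Real.log (2 + (x + 2 * κ * L)) ≤ l + 2 * κ * L / (2 + x) := by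
    have h1 : 2 + (x + 2 * κ * L) = (2 + x) * (1 + 2 * κ * L / (2 + x)) := by
      field_simp; ring
    have hp : 0 < 1 + 2 * κ * L / (2 + x) := by positivity
    rw [h1, Real.log_mul (by linarith) hp.ne']
    have := Real.log_le_sub_one_of_pos hp
    linarith
  have hlog2 : Real.log (2 + (x + 2 * κ * L)) ≤ l + (ε * (1 + κ * L) + |Real.log (1 / ε)|) := by
    have hp : 0 < 1 + κ * L := by positivity
    have h1 : Real.log (2 + (x + 2 * κ * L)) ≤ l + Real.log (1 + κ * L) := by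
      rw [hl, ← Real.log_mul (by linarith) hp.ne']
      apply Real.log_le_log (by positivity)
      have : 0 ≤ x * (κ * L) := by positivity
      nlinarith
    have h2 : Real.log (1 + κ * L) = Real.log (ε * (1 + κ * L)) + Real.log (1 / ε) := by
      rw [← Real.log_mul (by positivity) (by positivity)]
      congr 1
      field_simp
    have h3 := Real.log_le_sub_one_of_pos (show 0 < ε * (1 + κ * L) by positivity)
    have h4 := le_abs_self (Real.log (1 / ε))
    linarith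
  have hx1 : d * x / 2 * Real.log (2 + (x + 2 * κ * L)) ≤ d * x / 2 * l + d * κ * L := by
    calc d * x / 2 * Real.log (2 + (x + 2 * κ * L)) ≤ d * x / 2 * (l + 2 * κ * L / (2 + x)) := by
          gcongr
      _ = d * x / 2 * l + d * κ * L * (x / (2 + x)) := by ring
      _ ≤ d * x / 2 * l + d * κ * L * 1 := by
          gcongr
          rw [div_le_one (by linarith)]
          linarith
      _ = _ := by ring
  have hx2 : d * κ * L * Real.log (2 + (x + 2 * κ * L)) ≤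
      d * κ * L * l + (L / 4 + κ * L ^ 2 / 4) + d * κ * |Real.log (1 / ε)| * L := by
    calc d * κ * L * Real.log (2 + (x + 2 * κ * L)) ≤
        d * κ * L * (l + (ε * (1 + κ * L) + |Real.log (1 / ε)|)) := by gcongr
      _ = d * κ * L * l + (d * κ * ε) * (L * (1 + κ * L)) + d * κ * |Real.log (1 / ε)| * L := by ring
      _ = d * κ * L * l + (1 / 4) * (L * (1 + κ * L)) + d * κ * |Real.log (1 / ε)| * L := by
          have : d * κ * ε = 1 / 4 := by rw [hε]; field_simp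
          rw [this]
      _ = _ := by ring
  have hx3 : d * κ * L * l ≤ κ * L ^ 2 / 4 + κ * d ^ 2 * l ^ 2 := by
    have : 0 ≤ κ * (L / 2 - d * l) ^ 2 := by positivity
    nlinarith
  have hx4 : κ * d ^ 2 * l ^ 2 ≤ 8 * κ * d ^ 2 * (1 + x) := by
    calc κ * d ^ 2 * l ^ 2 ≤ κ * d ^ 2 * (8 * (1 + x)) := by gcongr
      _ = _ := by ring
  have hx5 : B * L ≤ κ * L ^ 2 / 2 + B ^ 2 / (2 * κ) := by
    have h1 : 0 ≤ (κ * L - B) ^ 2 / (2 * κ) := by positivity
    have h2 : (κ * L - B) ^ 2 / (2 * κ) = κ * L ^ 2 / 2 - B * L + B ^ 2 / (2 * κ) := by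
      field_simp; ring
    linarith
  have hx6 : B ^ 2 / (2 * κ) ≤ B ^ 2 / (2 * κ) * (1 + x) := by
    have : 0 ≤ B ^ 2 / (2 * κ) * x := by positivity
    linarith
  have hB' : B * L = A * L + d * κ * L + L / 4 + d * κ * |Real.log (1 / ε)| * L +
      2 * C1 * κ * L + 2 * L := by rw [hB]; ring
  have e1 : d * (x + 2 * κ * L) / 2 * Real.log (2 + (x + 2 * κ * L)) =
      d * x / 2 * Real.log (2 + (x + 2 * κ * L)) + d * κ * L * Real.log (2 + (x + 2 * κ * L)) := by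
    ring
  have e2 : (8 * κ * d ^ 2 + C1 + B ^ 2 / (2 * κ)) * (1 + x) =
      8 * κ * d ^ 2 * (1 + x) + C1 * (1 + x) + B ^ 2 / (2 * κ) * (1 + x) := by ring
  have e3 : C1 * (1 + (x + 2 * κ * L)) = C1 * (1 + x) + 2 * C1 * κ * L := by ring
  rw [e1, e2, e3]
  linarith

theorem XK_right (D : Dat) (hD : Ok D) (hE : S_EXP D) (κ : ℝ) (hκ : 0 < κ) :
    ∃ C : ℝ, 0 < C ∧ ∀ z : ℂ, 0 ≤ z.re → ‖XK D κ z‖ ≤
      Real.exp ((D.d : ℝ) * |z.re| / 2 * Real.log (2 + ‖z‖) + C * (1 + ‖z‖)) := by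
  obtain ⟨C1, hC10, hC1⟩ := HH_le D hD
  obtain ⟨A, hA0, hA⟩ := hD.gr
  have hd : (1 : ℝ) ≤ D.d := by exact_mod_cast hD.hd
  obtain ⟨C2, hC20, hC2⟩ := numeric (D.d : ℝ) κ A C1 hd hκ hA0 hC10
  have hsum : Summable (fun n : ℕ => 1 / (((n : ℝ) + 1) ^ 2)) := by
    have := (summable_nat_add_iff 1).2 (Real.summable_one_div_nat_pow.2 (show 1 < 2 by norm_num))
    simpa using this
  set S : ℝ := ∑' n : ℕ, 1 / (((n : ℝ) + 1) ^ 2) with hS
  have hS0 : 0 ≤ S := tsum_nonneg fun n => by positivity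
  refine ⟨C2 + S + 1, by positivity, fun z hz => ?_⟩
  set x := z.re with hx
  set E : ℝ := Real.exp ((D.d : ℝ) * x / 2 * Real.log (2 + x) + C2 * (1 + x)) with hEdef
  obtain ⟨hs, heq⟩ := hE κ hκ z hz
  have hterm : ∀ n : ℕ, ‖XT D κ z n‖ ≤ E * (1 / (((n : ℝ) + 1) ^ 2)) := by
    intro n
    have hn1 : (0 : ℝ) < (n : ℝ) + 1 := by positivity
    set Ln := Real.log ((n : ℝ) + 1) with hLn
    have hL0 : 0 ≤ Ln := Real.log_nonneg (by linarith [(Nat.cast_nonneg n : (0:ℝ) ≤ n)])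
    have h1 : ‖D.a (n + 1)‖ ≤ Real.exp (A * Ln) := by
      have := hA (n + 1) (by omega)
      push_cast at this
      rwa [Real.rpow_def_of_pos hn1, mul_comm] at this
    have h2 : ‖((n : ℂ) + 1) ^ (-(1 / 2) - z)‖ ≤ 1 := by
      have hc : ((n : ℂ) + 1) = (((n : ℝ) + 1 : ℝ) : ℂ) := by push_cast; ring
      rw [hc, Complex.norm_cpow_eq_rpow_re_of_pos hn1]
      apply Real.rpow_le_one_of_one_le_of_nonpos
      · linarith [(Nat.cast_nonneg n : (0:ℝ) ≤ n)]
      · have : (-(1 / 2) - z).re = -(1 / 2) - x := by simp [hx]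
        rw [this]; linarith
    have h3 : ‖((Real.exp (-(κ * Ln ^ 2)) : ℝ) : ℂ)‖ = Real.exp (-(κ * Ln ^ 2)) := by
      rw [Complex.norm_real, Real.norm_eq_abs, abs_of_pos (Real.exp_pos _)]
    have hre : (z + ((2 * κ * Ln : ℝ) : ℂ)).re = x + 2 * κ * Ln := by
      rw [Complex.add_re, Complex.ofReal_re]
    have h4 : ‖GG D κ (z + ((2 * κ * Ln : ℝ) : ℂ))‖ ≤
        Real.exp ((D.d : ℝ) * (x + 2 * κ * Ln) / 2 * Real.log (2 + (x + 2 * κ * Ln)) +
          C1 * (1 + (x + 2 * κ * Ln))) := by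
      have := GG_le D C1 hC1 κ (z + ((2 * κ * Ln : ℝ) : ℂ)) (by rw [hre]; positivity)
      rwa [hre] at this
    have h5 : ‖XT D κ z n‖ ≤ Real.exp (A * Ln) * 1 * Real.exp (-(κ * Ln ^ 2)) *
        Real.exp ((D.d : ℝ) * (x + 2 * κ * Ln) / 2 * Real.log (2 + (x + 2 * κ * Ln)) +
          C1 * (1 + (x + 2 * κ * Ln))) := by
      unfold XT
      rw [norm_mul, norm_mul, norm_mul, h3]
      gcongr
    refine h5.trans ?_
    have h6 : (1 / (((n : ℝ) + 1) ^ 2)) = Real.exp (-(2 * Ln)) := by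
      rw [Real.exp_neg, two_mul, Real.exp_add, hLn, Real.exp_log hn1]
      rw [one_div, sq]
    rw [h6, hEdef, mul_one, ← Real.exp_add, ← Real.exp_add, ← Real.exp_add]
    apply Real.exp_le_exp.2
    have := hC2 x Ln hz hL0
    linarith
  rw [heq]
  have hEpos : 0 < E := Real.exp_pos _
  have h7 : ‖∑' n : ℕ, XT D κ z n‖ ≤ E * S := by
    refine (norm_tsum_le_tsum_norm hs).trans ?_
    rw [hS, ← tsum_mul_left]
    exact hs.tsum_le_tsum hterm (hsum.mul_left E)
  have h8 : S ≤ Real.exp (S * (1 + ‖z‖)) := by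
    have h9 := Real.add_one_le_exp S
    have h10 : Real.exp S ≤ Real.exp (S * (1 + ‖z‖)) := by
      apply Real.exp_le_exp.2
      have : 0 ≤ S * ‖z‖ := by positivity
      linarith
    linarith
  have hxz : x ≤ ‖z‖ := (le_abs_self _).trans (Complex.abs_re_le_norm z)
  have h11 : E ≤ Real.exp ((D.d : ℝ) * |x| / 2 * Real.log (2 + ‖z‖) + C2 * (1 + ‖z‖)) := by
    rw [hEdef, abs_of_nonneg hz]
    apply Real.exp_le_exp.2
    have hlog : Real.log (2 + x) ≤ Real.log (2 + ‖z‖) := Real.log_le_log (by linarith) (by linarith)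
    gcongr
  calc ‖∑' n : ℕ, XT D κ z n‖ ≤ E * S := h7
    _ ≤ Real.exp ((D.d : ℝ) * |x| / 2 * Real.log (2 + ‖z‖) + C2 * (1 + ‖z‖)) *
        Real.exp (S * (1 + ‖z‖)) := by gcongr
    _ = Real.exp ((D.d : ℝ) * |x| / 2 * Real.log (2 + ‖z‖) + (C2 + S) * (1 + ‖z‖)) := by
        rw [← Real.exp_add]; congr 1; ring
    _ ≤ _ := by
        apply Real.exp_le_exp.2
        have : 0 ≤ 1 + ‖z‖ := by positivity
        nlinarith

theorem grw (D : Dat) (hD : Ok D) (hG : S_GGC D) (hE : S_EXP D) (hS : S_SYM D) : S_GRW D := by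
  intro κ hκ
  obtain ⟨C, hC0, hC⟩ := XK_right D hD hE κ hκ
  refine ⟨C, hC0, fun z => ?_⟩
  by_cases hz : 0 ≤ z.re
  · exact hC z hz
  · push Not at hz
    have h1 := (hS κ hκ).2.1 (-z)
    rw [neg_neg] at h1
    rw [h1, norm_mul, hD.hw, one_mul, RCLike.norm_conj]
    have h2 := hC (conj (-z)) (by simp; linarith)
    have e1 : (conj (-z)).re = -z.re := by simp
    have e2 : ‖conj (-z)‖ = ‖z‖ := by rw [RCLike.norm_conj, norm_neg]
    rw [e1, e2, abs_neg] at h2
    exact h2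

end Pool.Agent.W304.BG
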